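import Pool.Agent.H932BP.Defs

open MeasureTheory Finset ProbabilityTheory

namespace Pool.Agent.H932BP

theorem pi_map_comp {ι ι' : Type} [Fintype ι] [Fintype ι'] (μ : ι → Measure ℝ)
    [∀ i, IsProbabilityMeasure (μ i)] {g : ι' → ι} (hg : Function.Injective g) :
    (Measure.pi μ).map (fun ω i => ω (g i)) = Measure.pi (fun i => μ (g i)) := by
  have h1 : iIndepFun (fun (i : ι) (ω : ι → ℝ) => id (ω i)) (Measure.pi μ) :=
    iIndepFun_pi (μ := μ) (X := fun _ => id) (fun i => aemeasurable_id)
  have h2 := h1.precomp hg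
  have h3 := (iIndepFun_iff_map_fun_eq_pi_map (μ := Measure.pi μ)
    (f := fun (i : ι') (ω : ι → ℝ) => id (ω (g i))) (fun i => by
      exact (measurable_pi_apply (g i)).aemeasurable)).1 h2
  simp only [id] at h3
  rw [h3]
  congr 1
  funext i
  exact (measurePreserving_eval μ (g i)).map_eq

theorem pi_map_pair {ι ι₁ ι₂ : Type} [Fintype ι] [Fintype ι₁] [Fintype ι₂] (μ : ι → Measure ℝ)
    [∀ i, IsProbabilityMeasure (μ i)] {g₁ : ι₁ → ι} {g₂ : ι₂ → ι}
    (hg : Function.Injective (Sum.elim g₁ g₂)) {S₁ : Set (ι₁ → ℝ)} {S₂ : Set (ι₂ → ℝ)}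
    (hS₁ : MeasurableSet S₁) (hS₂ : MeasurableSet S₂) :
    (Measure.pi μ) {ω | (fun i => ω (g₁ i)) ∈ S₁ ∧ (fun i => ω (g₂ i)) ∈ S₂} =
      Measure.pi (fun i => μ (g₁ i)) S₁ * Measure.pi (fun i => μ (g₂ i)) S₂ := by
  have h1 := pi_map_comp μ hg
  have h2 := measurePreserving_sumPiEquivProdPi (X := fun _ : ι₁ ⊕ ι₂ => ℝ)
    (fun i => μ (Sum.elim g₁ g₂ i))
  have hS : MeasurableSet (S₁ ×ˢ S₂) := hS₁.prod hS₂
  have h3 := h2.measure_preimage hS.nullMeasurableSet
  rw [← h1] at h3
  rw [Measure.map_apply (by fun_prop) (h2.measurable hS)] at h3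
  have h4 : (Measure.pi fun i => μ (Sum.elim g₁ g₂ (Sum.inl i))).prod
      (Measure.pi fun i => μ (Sum.elim g₁ g₂ (Sum.inr i))) (S₁ ×ˢ S₂) =
      Measure.pi (fun i => μ (g₁ i)) S₁ * Measure.pi (fun i => μ (g₂ i)) S₂ := by
    rw [Measure.prod_prod]
    rfl
  rw [h4] at h3
  rw [← h3]
  rfl

instance unif_prob : IsProbabilityMeasure (unif (-1) 1) := by
  unfold unif
  apply ProbabilityTheory.cond_isProbabilityMeasure_of_finite
  · simp only [Real.volume_Icc, ne_eq, ENNReal.ofReal_eq_zero, not_le]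
    norm_num
  · simp only [Real.volume_Icc, ne_eq, ENNReal.ofReal_ne_top, not_false_eq_true]

instance unif_prob' : IsProbabilityMeasure (unif 0 1) := by
  unfold unif
  apply ProbabilityTheory.cond_isProbabilityMeasure_of_finite
  · simp only [Real.volume_Icc, ne_eq, ENNReal.ofReal_eq_zero, not_le]
    norm_num
  · simp only [Real.volume_Icc, ne_eq, ENNReal.ofReal_ne_top, not_false_eq_true]

instance fairCoin_prob : IsProbabilityMeasure fairCoin := by
  refine ⟨?_⟩
  simp only [fairCoin, Measure.coe_add, Measure.coe_smul, Pi.add_apply, Pi.smul_apply,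
    measure_univ, smul_eq_mul, mul_one]
  rw [one_div]
  exact ENNReal.inv_two_add_inv_two

instance inputLaw_prob {n : ℕ} (x : Input n) : IsProbabilityMeasure (inputLaw x) := by
  rcases x with x | x | x
  · exact unif_prob
  · exact unif_prob'
  · exact fairCoin_prob

instance law_prob (n : ℕ) : IsProbabilityMeasure (law n) := by
  unfold law; infer_instance

/-- The map of input names induced by a map of vertices. -/
def inputMap {m n : ℕ} (φ : Fin m → Fin n) : Input m → Input n :=
  Sum.map (Prod.map φ φ) (Sum.map (Sym2.map φ) φ)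

theorem inputLaw_inputMap {m n : ℕ} (φ : Fin m → Fin n) (x : Input m) :
    inputLaw (inputMap φ x) = inputLaw x := by
  rcases x with x | x | x <;> rfl

theorem inputMap_injective {m n : ℕ} {φ : Fin m → Fin n} (hφ : Function.Injective φ) :
    Function.Injective (inputMap φ) := by
  unfold inputMap
  exact Sum.map_injective.2 ⟨hφ.prodMap hφ, Sum.map_injective.2 ⟨Sym2.map.injective hφ, hφ⟩⟩

/-- Restriction of the inputs along a map of vertices. -/
def restr {m n : ℕ} (φ : Fin m → Fin n) (ω : Input n → ℝ) : Input m → ℝ :=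
  fun x => ω (inputMap φ x)

theorem measurable_restr {m n : ℕ} (φ : Fin m → Fin n) : Measurable (restr φ) := by
  unfold restr; fun_prop

theorem law_restr_pair {m₁ m₂ n : ℕ} {φ₁ : Fin m₁ → Fin n} {φ₂ : Fin m₂ → Fin n}
    (h₁ : Function.Injective φ₁) (h₂ : Function.Injective φ₂)
    (hd : ∀ x y, φ₁ x ≠ φ₂ y) {S₁ : Set (Input m₁ → ℝ)} {S₂ : Set (Input m₂ → ℝ)}
    (hS₁ : MeasurableSet S₁) (hS₂ : MeasurableSet S₂) :
    law n {ω | restr φ₁ ω ∈ S₁ ∧ restr φ₂ ω ∈ S₂} = law m₁ S₁ * law m₂ S₂ := by
  have hinj : Function.Injective (Sum.elim (inputMap φ₁) (inputMap φ₂)) := by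
    refine (inputMap_injective h₁).sumElim (inputMap_injective h₂) ?_
    rintro (x | x | x) (y | y | y) h
    · simp only [inputMap, Sum.map_inl, Sum.inl.injEq, Prod.map, Prod.mk.injEq] at h
      exact hd _ _ h.1
    · simp [inputMap] at h
    · simp [inputMap] at h
    · simp [inputMap] at h
    · simp only [inputMap, Sum.map_inr, Sum.map_inl, Sum.inr.injEq, Sum.inl.injEq] at h
      induction x using Sym2.ind with
      | _ x x' =>
      induction y using Sym2.ind with
      | _ y y' =>
      simp only [Sym2.map_mk, Sym2.eq_iff] at h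
      rcases h with h | h
      · exact hd _ _ h.1
      · exact hd _ _ h.1
    · simp [inputMap] at h
    · simp [inputMap] at h
    · simp [inputMap] at h
    · simp only [inputMap, Sum.map_inr, Sum.inr.injEq] at h
      exact hd _ _ h
  have h := pi_map_pair (inputLaw (n := n)) hinj hS₁ hS₂
  unfold law
  simp only [inputLaw_inputMap] at h
  exact h

/-- Probability that an edge variable is at least `p`. -/
theorem unif_ge (p : ℝ) (hp0 : 0 ≤ p) (_hp1 : p ≤ 1) :
    unif 0 1 {x | ¬ x < p} = ENNReal.ofReal (1 - p) := by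
  unfold unif
  rw [ProbabilityTheory.cond_apply measurableSet_Icc]
  have : Set.Icc (0:ℝ) 1 ∩ {x | ¬ x < p} = Set.Icc p 1 := by
    ext x
    simp only [Set.mem_inter_iff, Set.mem_Icc, Set.mem_ofPred_eq, not_lt]
    constructor
    · rintro ⟨⟨h0, h1⟩, h2⟩; exact ⟨h2, h1⟩
    · rintro ⟨h1, h2⟩; exact ⟨⟨by linarith, h2⟩, h1⟩
  rw [this, Real.volume_Icc, Real.volume_Icc]
  simp

theorem unif_neg : unif 0 1 {x | x < 0} = 0 := by
  unfold unif
  rw [ProbabilityTheory.cond_apply measurableSet_Icc]
  have : Set.Icc (0:ℝ) 1 ∩ {x | x < 0} = ∅ := by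
    ext x
    simp only [Set.mem_inter_iff, Set.mem_Icc, Set.mem_ofPred_eq, Set.mem_empty_iff_false, iff_false]
    rintro ⟨⟨h0, h1⟩, h2⟩; linarith
  rw [this]
  simp

/-- Almost surely no edge variable is negative. -/
theorem ae_nonneg (n : ℕ) : ∀ᵐ ω ∂(law n), ∀ e : Sym2 (Fin n), 0 ≤ ω (.inr (.inl e)) := by
  rw [ae_all_iff]
  intro e
  have h := measurePreserving_eval (inputLaw (n := n)) (.inr (.inl e))
  have h2 : ∀ᵐ x ∂(unif 0 1), 0 ≤ x := by
    rw [ae_iff]
    simp only [not_le]
    exact unif_neg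
  exact h.quasiMeasurePreserving.ae h2

/-- The edge variables at a vertex `v` and the inputs of the other vertices are independent. -/
theorem law_isolated {m : ℕ} (v : Fin (m + 1)) {p : ℝ} (hp0 : 0 ≤ p) (hp1 : p ≤ 1)
    {S : Set (Input m → ℝ)} (hS : MeasurableSet S) :
    law (m + 1) {ω | restr v.succAbove ω ∈ S ∧
        ∀ i : Fin m, ¬ ω (.inr (.inl s(v, v.succAbove i))) < p} =
      law m S * ENNReal.ofReal (1 - p) ^ m := by
  have hinj : Function.Injective (Sum.elim (inputMap v.succAbove)
      (fun i : Fin m => (.inr (.inl s(v, v.succAbove i)) : Input (m + 1)))) := by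
    refine (inputMap_injective v.succAbove_right_injective).sumElim ?_ ?_
    · intro i j h
      simp only [Sum.inr.injEq, Sum.inl.injEq, Sym2.eq_iff] at h
      rcases h with h | h
      · exact v.succAbove_right_injective h.2
      · exact absurd h.1.symm (v.succAbove_ne j)
    · rintro (x | x | x) i h
      · simp [inputMap] at h
      · simp only [inputMap, Sum.map_inr, Sum.map_inl, Sum.inr.injEq, Sum.inl.injEq] at h
        induction x using Sym2.ind with
        | _ x x' =>
        simp only [Sym2.map_mk, Sym2.eq_iff] at h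
        rcases h with h | h
        · exact v.succAbove_ne _ h.1
        · exact v.succAbove_ne _ h.2
      · simp [inputMap] at h
  have hS2 : MeasurableSet (Set.pi Set.univ (fun _ : Fin m => {x : ℝ | ¬ x < p})) := by
    refine MeasurableSet.univ_pi (fun i => ?_)
    simp only [not_lt]
    exact measurableSet_Ici
  have h := pi_map_pair (inputLaw (n := m + 1)) hinj hS hS2
  rw [Measure.pi_pi] at h
  simp only [inputLaw_inputMap] at h
  have h3 : ∏ i : Fin m, (inputLaw (Sum.inr (Sum.inl s(v, v.succAbove i)) : Input (m + 1)))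
      {x : ℝ | ¬ x < p} = ENNReal.ofReal (1 - p) ^ m := by
    rw [Finset.prod_congr rfl (g := fun _ => ENNReal.ofReal (1 - p))]
    · simp
    · intro i _
      exact unif_ge p hp0 hp1
  rw [h3] at h
  unfold law
  rw [← h]
  congr 1
  ext ω
  simp only [Set.mem_ofPred_eq, Set.mem_pi, Set.mem_univ, forall_true_left]
  exact Iff.rfl

/-- `φ` identifies `G'` with a part of `G` that no edge of `G` leaves. -/
structure IsPart {m n : ℕ} (φ : Fin m → Fin n) (G' : SimpleGraph (Fin m))
    (G : SimpleGraph (Fin n)) : Prop where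
  inj : Function.Injective φ
  adj : ∀ i j, G.Adj (φ i) (φ j) ↔ G'.Adj i j
  closed : ∀ i k, G.Adj (φ i) k → ∃ j, φ j = k

theorem message_part {m n : ℕ} {φ : Fin m → Fin n} {G' : SimpleGraph (Fin m)}
    {G : SimpleGraph (Fin n)} (hc : IsPart φ G' G) (f : ℝ → ℝ) (h0 : Fin n → Fin n → ℝ)
    (h0' : Fin m → Fin m → ℝ) (hh : ∀ i j, h0 (φ i) (φ j) = h0' i j) (t : ℕ) :
    ∀ i j, message f G h0 t (φ i) (φ j) = message f G' h0' t i j := by
  classical
  induction t with
  | zero => intro i j; exact hh i j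
  | succ t ih =>
    intro i j
    simp only [message]
    symm
    apply Finset.sum_nbij φ
    · intro k hk
      simp only [mem_filter, mem_univ, true_and] at hk ⊢
      exact ⟨(hc.adj i k).2 hk.1, fun h => hk.2 (hc.inj h)⟩
    · exact hc.inj.injOn
    · intro k hk
      simp only [coe_filter, mem_univ, true_and, Set.mem_ofPred_eq] at hk
      obtain ⟨k', rfl⟩ := hc.closed i k hk.1
      refine ⟨k', ?_, rfl⟩
      simp only [coe_filter, mem_univ, true_and, Set.mem_ofPred_eq]
      exact ⟨(hc.adj i k').1 hk.1, fun h => hk.2 (by rw [h])⟩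
    · intro k _
      rw [ih k i]

theorem field_part {m n : ℕ} {φ : Fin m → Fin n} {G' : SimpleGraph (Fin m)}
    {G : SimpleGraph (Fin n)} (hc : IsPart φ G' G) (f : ℝ → ℝ) (h0 : Fin n → Fin n → ℝ)
    (h0' : Fin m → Fin m → ℝ) (hh : ∀ i j, h0 (φ i) (φ j) = h0' i j) (t : ℕ) (i : Fin m) :
    field f G h0 t (φ i) = field f G' h0' t i := by
  classical
  simp only [field]
  symm
  apply Finset.sum_nbij φ
  · intro k hk
    simp only [mem_filter, mem_univ, true_and] at hk ⊢
    exact (hc.adj i k).2 hk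
  · exact hc.inj.injOn
  · intro k hk
    simp only [coe_filter, mem_univ, true_and, Set.mem_ofPred_eq] at hk
    obtain ⟨k', rfl⟩ := hc.closed i k hk
    refine ⟨k', ?_, rfl⟩
    simp only [coe_filter, mem_univ, true_and, Set.mem_ofPred_eq]
    exact (hc.adj i k').1 hk
  · intro k _
    rw [message_part hc f h0 h0' hh t k i]

theorem estimate_part {m n : ℕ} {φ : Fin m → Fin n} {G' : SimpleGraph (Fin m)}
    {G : SimpleGraph (Fin n)} (hc : IsPart φ G' G) (f : ℝ → ℝ) (h0 : Fin n → Fin n → ℝ)
    (h0' : Fin m → Fin m → ℝ) (hh : ∀ i j, h0 (φ i) (φ j) = h0' i j) (t : ℕ)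
    (c : Fin n → ℝ) (c' : Fin m → ℝ) (hcc : ∀ i, c (φ i) = c' i) (i : Fin m) :
    estimate f G h0 t c (φ i) = estimate f G' h0' t c' i := by
  simp only [estimate, field_part hc f h0 h0' hh t i, hcc i]

theorem abs_estimate_le {n : ℕ} (f : ℝ → ℝ) (G : SimpleGraph (Fin n)) (h0 : Fin n → Fin n → ℝ)
    (t : ℕ) (c : Fin n → ℝ) (i : Fin n) : |estimate f G h0 t c i| ≤ 1 := by
  unfold estimate
  split_ifs <;> simp

theorem measurable_message {Ω : Type} [MeasurableSpace Ω] {n : ℕ} {f : ℝ → ℝ} (hf : Measurable f)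
    (G : Ω → SimpleGraph (Fin n)) (hG : ∀ i j, MeasurableSet {ω | (G ω).Adj i j})
    (h0 : Ω → Fin n → Fin n → ℝ) (hh : ∀ i j, Measurable (fun ω => h0 ω i j)) (t : ℕ) :
    ∀ i j, Measurable (fun ω => message f (G ω) (h0 ω) t i j) := by
  classical
  induction t with
  | zero => intro i j; exact hh i j
  | succ t ih =>
    intro i j
    simp only [message]
    simp only [Finset.sum_filter]
    refine Finset.measurable_sum _ (fun k _ => ?_)
    refine Measurable.ite ?_ (hf.comp (ih k i)) measurable_const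
    by_cases hk : k = j
    · simp [hk]
    · simp only [ne_eq, hk, not_false_eq_true, and_true]
      exact hG i k

theorem measurable_field {Ω : Type} [MeasurableSpace Ω] {n : ℕ} {f : ℝ → ℝ} (hf : Measurable f)
    (G : Ω → SimpleGraph (Fin n)) (hG : ∀ i j, MeasurableSet {ω | (G ω).Adj i j})
    (h0 : Ω → Fin n → Fin n → ℝ) (hh : ∀ i j, Measurable (fun ω => h0 ω i j)) (t : ℕ)
    (i : Fin n) : Measurable (fun ω => field f (G ω) (h0 ω) t i) := by
  classical
  simp only [field, Finset.sum_filter]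
  refine Finset.measurable_sum _ (fun k _ => ?_)
  exact Measurable.ite (hG i k) (hf.comp (measurable_message hf G hG h0 hh t k i)) measurable_const

theorem measurable_estimate {Ω : Type} [MeasurableSpace Ω] {n : ℕ} {f : ℝ → ℝ}
    (hf : Measurable f)
    (G : Ω → SimpleGraph (Fin n)) (hG : ∀ i j, MeasurableSet {ω | (G ω).Adj i j})
    (h0 : Ω → Fin n → Fin n → ℝ) (hh : ∀ i j, Measurable (fun ω => h0 ω i j)) (t : ℕ)
    (c : Ω → Fin n → ℝ) (hc : ∀ i, Measurable (fun ω => c ω i))
    (i : Fin n) : Measurable (fun ω => estimate f (G ω) (h0 ω) t (c ω) i) := by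
  have h := measurable_field hf G hG h0 hh t i
  unfold estimate
  refine Measurable.ite (measurableSet_lt measurable_const h) measurable_const ?_
  refine Measurable.ite (measurableSet_lt h measurable_const) measurable_const ?_
  exact Measurable.ite (measurableSet_lt measurable_const (hc i)) measurable_const measurable_const

theorem measurable_bpFun (a b : ℝ) : Measurable (bpFun a b) := by
  unfold bpFun Real.artanh
  have h : Measurable Real.tanh := by
    have : (Real.tanh : ℝ → ℝ) = fun x => Real.sinh x / Real.cosh x := by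
      funext x; exact Real.tanh_eq_sinh_div_cosh x
    rw [this]
    exact Real.measurable_sinh.div Real.measurable_cosh
  fun_prop

/-- The random graph in which all pairs are joined with probability `p`. -/
def gnp {n : ℕ} (p : ℝ) (ω : Input n → ℝ) : SimpleGraph (Fin n) :=
  blockGraph p p (fun _ => true) (fun e => ω (.inr (.inl e)))

theorem gnp_adj {n : ℕ} (p : ℝ) (ω : Input n → ℝ) (i j : Fin n) :
    (gnp p ω).Adj i j ↔ i ≠ j ∧ ω (.inr (.inl s(i, j))) < p := by
  simp [gnp, blockGraph]

/-- The estimate of belief propagation on the graph `gnp p ω`. -/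
noncomputable def est {n : ℕ} (f : ℝ → ℝ) (t : ℕ) (p : ℝ) (ω : Input n → ℝ) (i : Fin n) : ℝ :=
  estimate f (gnp p ω) (fun i j => ω (.inl (i, j))) t (fun i => ω (.inr (.inr i))) i

/-- The sum of the estimates. -/
noncomputable def total {n : ℕ} (f : ℝ → ℝ) (t : ℕ) (p : ℝ) (ω : Input n → ℝ) : ℝ :=
  ∑ i, est f t p ω i

/-- The vertex `v` is isolated in `gnp p ω`. -/
def Iso {n : ℕ} (p : ℝ) (ω : Input n → ℝ) (v : Fin n) : Prop := ∀ j, ¬ (gnp p ω).Adj v j

open scoped Classical in
/-- The number of isolated vertices. -/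
noncomputable def numIso {n : ℕ} (p : ℝ) (ω : Input n → ℝ) : ℕ :=
  (univ.filter (fun v => Iso p ω v)).card

theorem measurableSet_adj {n : ℕ} (p : ℝ) (i j : Fin n) :
    MeasurableSet {ω : Input n → ℝ | (gnp p ω).Adj i j} := by
  simp only [gnp_adj]
  by_cases h : i = j
  · simp [h]
  · simp only [ne_eq, h, not_false_eq_true, true_and]
    exact measurableSet_lt (measurable_pi_apply _) measurable_const

theorem measurableSet_iso {n : ℕ} (p : ℝ) (v : Fin n) :
    MeasurableSet {ω : Input n → ℝ | Iso p ω v} := by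
  have : {ω : Input n → ℝ | Iso p ω v} = ⋂ j, {ω : Input n → ℝ | (gnp p ω).Adj v j}ᶜ := by
    ext ω; simp [Iso]
  rw [this]
  exact MeasurableSet.iInter (fun j => (measurableSet_adj p v j).compl)

theorem measurable_numIso {n : ℕ} (p : ℝ) :
    Measurable (fun ω : Input n → ℝ => numIso p ω) := by
  classical
  have : (fun ω : Input n → ℝ => numIso p ω) =
      fun ω => ∑ v, if Iso p ω v then 1 else 0 := by
    funext ω
    exact Finset.card_filter _ _
  rw [this]
  exact Finset.measurable_sum _ (fun v _ =>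
    Measurable.ite (measurableSet_iso p v) measurable_const measurable_const)

theorem measurable_total {n : ℕ} {f : ℝ → ℝ} (hf : Measurable f) (t : ℕ) (p : ℝ) :
    Measurable (fun ω : Input n → ℝ => total f t p ω) := by
  unfold total est
  refine Finset.measurable_sum _ (fun i _ => ?_)
  exact measurable_estimate hf _ (measurableSet_adj p) _
    (fun i j => measurable_pi_apply _) t _ (fun i => measurable_pi_apply _) i

/-- Removing an isolated vertex. -/
theorem iso_isPart {m : ℕ} (v : Fin (m + 1)) (p : ℝ) (ω : Input (m + 1) → ℝ)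
    (hv : Iso p ω v) : IsPart v.succAbove (gnp p (restr v.succAbove ω)) (gnp p ω) where
  inj := v.succAbove_right_injective
  adj i j := by
    rw [gnp_adj, gnp_adj]
    simp only [restr, inputMap, Sum.map_inr, Sum.map_inl, Sym2.map_mk, ne_eq,
      v.succAbove_right_injective.eq_iff]
  closed i k h := by
    apply Fin.exists_succAbove_eq
    rintro rfl
    exact hv _ h.symm

theorem iso_iff {m : ℕ} (v : Fin (m + 1)) (p : ℝ) (ω : Input (m + 1) → ℝ) :
    Iso p ω v ↔ ∀ i : Fin m, ¬ ω (.inr (.inl s(v, v.succAbove i))) < p := by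
  unfold Iso
  constructor
  · intro h i hi
    exact h (v.succAbove i) ((gnp_adj _ _ _ _).2 ⟨(v.succAbove_ne i).symm, hi⟩)
  · intro h j hj
    rw [gnp_adj] at hj
    obtain ⟨i, rfl⟩ := Fin.exists_succAbove_eq hj.1.symm
    exact h i hj.2

theorem total_remove {m : ℕ} (v : Fin (m + 1)) (f : ℝ → ℝ) (t : ℕ) (p : ℝ)
    (ω : Input (m + 1) → ℝ) (hv : Iso p ω v) :
    total f t p ω = est f t p ω v + total f t p (restr v.succAbove ω) := by
  unfold total
  rw [Fin.sum_univ_succAbove _ v]
  congr 1
  refine Finset.sum_congr rfl (fun i _ => ?_)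
  exact estimate_part (iso_isPart v p ω hv) f _ _ (fun _ _ => rfl) t _ _ (fun _ => rfl) i

theorem numIso_remove {m : ℕ} (v : Fin (m + 1)) (p : ℝ)
    (ω : Input (m + 1) → ℝ) (hv : Iso p ω v) :
    numIso p ω = 1 + numIso p (restr v.succAbove ω) := by
  classical
  unfold numIso
  rw [Finset.card_filter, Finset.card_filter, Fin.sum_univ_succAbove _ v, if_pos hv]
  congr 1
  refine Finset.sum_congr rfl (fun i _ => ?_)
  have hc := iso_isPart v p ω hv
  have : Iso p ω (v.succAbove i) ↔ Iso p (restr v.succAbove ω) i := by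
    unfold Iso
    constructor
    · intro h j hj
      exact h _ ((hc.adj i j).2 hj)
    · intro h k hk
      obtain ⟨j, rfl⟩ := hc.closed i k hk
      exact h j ((hc.adj i j).1 hk)
  simp only [this]

end Pool.Agent.H932BP
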