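import Pool.Agent.H932BP.Compare

open MeasureTheory Finset ProbabilityTheory

namespace Pool.Agent.H932BP

theorem abs_total_le {m : ℕ} (f : ℝ → ℝ) (t : ℕ) (p : ℝ) (ω : Input m → ℝ) :
    |total f t p ω| ≤ m := by
  unfold total
  refine (Finset.abs_sum_le_sum_abs _ _).trans ?_
  refine (Finset.sum_le_sum (fun i _ => abs_estimate_le f _ _ t _ i)).trans ?_
  simp

/-- Pigeonhole over bins of width `w`. -/
theorem pigeonhole (M n K : ℕ) (hM : M ≤ n) (f : ℝ → ℝ) (t : ℕ) (p w : ℝ)
    (hw : 0 < w) (hK : 2 * (n : ℝ) < K * w) (j0 : ℕ)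
    (hj : 1 / 2 ≤ (law M).real {ω | j0 ≤ numIso p ω}) :
    ∃ x : ℝ, 1 / (2 * (K : ℝ)) ≤ (law M).real (Ev M f t p x (x + w) j0) := by
  have hK0 : 0 < (K : ℝ) := by
    by_contra h
    push Not at h
    have : (K : ℝ) * w ≤ 0 := mul_nonpos_of_nonpos_of_nonneg h hw.le
    have : (0 : ℝ) ≤ n := by positivity
    linarith
  by_contra hcon
  push Not at hcon
  have h1 : {ω : Input M → ℝ | j0 ≤ numIso p ω} ⊆
      ⋃ k ∈ Finset.range K, Ev M f t p (-n + k * w) (-n + k * w + w) j0 := by
    intro ω hω
    have habs := abs_total_le f t p ω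
    rw [abs_le] at habs
    have hMn : (M : ℝ) ≤ n := by exact_mod_cast hM
    set k : ℕ := ⌊(total f t p ω + n) / w⌋₊ with hk
    have hnn : 0 ≤ (total f t p ω + n) / w := by
      apply div_nonneg _ hw.le
      linarith
    have hk1 : (k : ℝ) ≤ (total f t p ω + n) / w := Nat.floor_le hnn
    have hk2 : (total f t p ω + n) / w < k + 1 := Nat.lt_floor_add_one _
    rw [le_div_iff₀ hw] at hk1
    rw [div_lt_iff₀ hw] at hk2
    have hkK : k < K := by
      have : (k : ℝ) * w < K * w := by linarith
      have := lt_of_mul_lt_mul_right this hw.le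
      exact_mod_cast this
    simp only [Set.mem_iUnion, Finset.mem_range]
    refine ⟨k, hkK, ⟨⟨by linarith, by linarith⟩, hω⟩⟩
  have h2 : (law M).real {ω : Input M → ℝ | j0 ≤ numIso p ω} ≤
      ∑ k ∈ Finset.range K, (law M).real (Ev M f t p (-n + k * w) (-n + k * w + w) j0) := by
    refine (measureReal_mono h1 (measure_ne_top _ _)).trans ?_
    exact measureReal_biUnion_finset_le _ _
  have h3 : ∑ k ∈ Finset.range K, (law M).real (Ev M f t p (-n + k * w) (-n + k * w + w) j0) <
      ∑ k ∈ Finset.range K, 1 / (2 * (K : ℝ)) := by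
    apply Finset.sum_lt_sum_of_nonempty
    · rw [Finset.nonempty_range_iff]
      intro h
      rw [h] at hK0
      simp at hK0
    · intro k _
      exact hcon _
  simp only [sum_const, card_range, nsmul_eq_mul] at h3
  have h4 : (K : ℝ) * (1 / (2 * (K : ℝ))) = 1 / 2 := by field_simp
  rw [h4] at h3
  linarith

/-- The sum of the labels as signs. -/
noncomputable def labelSum {n : ℕ} (σ : Fin n → Bool) : ℝ := ∑ i, (if σ i then (1 : ℝ) else -1)

theorem sum_labelSum_sq (n : ℕ) : ∑ σ : Fin n → Bool, labelSum σ ^ 2 = n * 2 ^ n := by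
  classical
  have h1 : ∀ σ : Fin n → Bool, labelSum σ ^ 2 =
      ∑ i, ∑ j, (if σ i then (1 : ℝ) else -1) * (if σ j then (1 : ℝ) else -1) := by
    intro σ
    rw [sq, labelSum, Finset.sum_mul_sum]
  simp only [h1]
  rw [Finset.sum_comm]
  have h2 : ∀ i : Fin n, ∑ σ : Fin n → Bool, ∑ j,
      (if σ i then (1 : ℝ) else -1) * (if σ j then (1 : ℝ) else -1) = 2 ^ n := by
    intro i
    rw [Finset.sum_comm]
    rw [Finset.sum_eq_single i]
    · have : ∀ σ : Fin n → Bool,
          (if σ i then (1 : ℝ) else -1) * (if σ i then (1 : ℝ) else -1) = 1 := by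
        intro σ; split_ifs <;> norm_num
      simp [this]
    · intro j _ hj
      -- flip the label of `j`
      have hinv : ∑ σ : Fin n → Bool,
          (if σ i then (1 : ℝ) else -1) * (if σ j then (1 : ℝ) else -1) =
          ∑ σ : Fin n → Bool,
          -((if σ i then (1 : ℝ) else -1) * (if σ j then (1 : ℝ) else -1)) := by
        refine Fintype.sum_equiv
          (Function.Involutive.toPerm (fun σ : Fin n → Bool => Function.update σ j (!σ j)) ?_) _ _ ?_
        · intro σ
          funext k
          by_cases hk : k = j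
          · subst hk; simp
          · simp [hk]
        · intro σ
          change (if σ i then (1 : ℝ) else -1) * (if σ j then (1 : ℝ) else -1) =
            -((if Function.update σ j (!σ j) i then (1 : ℝ) else -1) *
              (if Function.update σ j (!σ j) j then (1 : ℝ) else -1))
          rw [Function.update_self, Function.update_of_ne hj.symm]
          cases σ j <;> simp
      rw [Finset.sum_neg_distrib] at hinv
      linarith
    · intro h; exact absurd (Finset.mem_univ i) h
  rw [Finset.sum_congr rfl (fun i _ => h2 i)]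
  simp

/-- Most label vectors are balanced. -/
theorem card_balanced (n r : ℕ) (hr : n ≤ r * r) (hr0 : 0 < r) :
    (3 / 4 : ℝ) * 2 ^ n ≤
      ((univ.filter (fun σ : Fin n → Bool => |labelSum σ| ≤ 2 * r)).card : ℝ) := by
  classical
  have h1 := sum_labelSum_sq n
  set B := univ.filter (fun σ : Fin n → Bool => ¬ |labelSum σ| ≤ 2 * r) with hB
  have h2 : (B.card : ℝ) * (4 * (r : ℝ) ^ 2) ≤ n * 2 ^ n := by
    rw [← h1]
    calc (B.card : ℝ) * (4 * (r : ℝ) ^ 2) = ∑ σ ∈ B, (4 * (r : ℝ) ^ 2) := by simp
      _ ≤ ∑ σ ∈ B, labelSum σ ^ 2 := by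
        refine Finset.sum_le_sum (fun σ hσ => ?_)
        simp only [hB, mem_filter, mem_univ, true_and, not_le] at hσ
        rw [← sq_abs (labelSum σ)]
        nlinarith
      _ ≤ ∑ σ : Fin n → Bool, labelSum σ ^ 2 :=
        Finset.sum_le_sum_of_subset_of_nonneg (Finset.filter_subset _ _)
          (fun σ _ _ => sq_nonneg _)
  have hrR : (n : ℝ) ≤ (r : ℝ) ^ 2 := by
    have : (n : ℝ) ≤ (r : ℝ) * r := by exact_mod_cast hr
    nlinarith
  have hr0' : (0 : ℝ) < (r : ℝ) ^ 2 := by positivity
  have h3 : (B.card : ℝ) ≤ 2 ^ n / 4 := by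
    have h4 : (B.card : ℝ) * (4 * (r : ℝ) ^ 2) ≤ (r : ℝ) ^ 2 * 2 ^ n := by
      refine h2.trans ?_
      gcongr
    have h5 : (r : ℝ) ^ 2 * ((B.card : ℝ) * 4) ≤ (r : ℝ) ^ 2 * 2 ^ n := by linarith
    have h6 := le_of_mul_le_mul_left h5 hr0'
    linarith
  have h7 := Finset.card_filter_add_card_filter_not (s := (univ : Finset (Fin n → Bool)))
    (fun σ => |labelSum σ| ≤ 2 * r)
  have h8 : ((univ.filter (fun σ : Fin n → Bool => |labelSum σ| ≤ 2 * r)).card : ℝ) + B.card
      = 2 ^ n := by
    have : (univ.filter (fun σ : Fin n → Bool => |labelSum σ| ≤ 2 * r)).card + B.card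
      = 2 ^ n := by
      rw [hB, h7]; simp
    exact_mod_cast this
  linarith

/-- The vertices with a given label. -/
def side {n : ℕ} (σ : Fin n → Bool) (s : Bool) : Finset (Fin n) := univ.filter (fun i => σ i = s)

/-- An enumeration of the vertices with a given label. -/
def enum {n : ℕ} (σ : Fin n → Bool) (s : Bool) : Fin (side σ s).card → Fin n :=
  (side σ s).orderEmbOfFin rfl

theorem enum_injective {n : ℕ} (σ : Fin n → Bool) (s : Bool) : Function.Injective (enum σ s) :=
  ((side σ s).orderEmbOfFin rfl).injective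

theorem enum_label {n : ℕ} (σ : Fin n → Bool) (s : Bool) (i) : σ (enum σ s i) = s := by
  have h : enum σ s i ∈ side σ s := (side σ s).orderEmbOfFin_mem rfl i
  exact (Finset.mem_filter.1 h).2

theorem exists_enum {n : ℕ} (σ : Fin n → Bool) (s : Bool) (i : Fin n) (hi : σ i = s) :
    ∃ j, enum σ s j = i := by
  have h : i ∈ Set.range ((side σ s).orderEmbOfFin rfl) := by
    rw [Finset.range_orderEmbOfFin]
    simp [side, hi]
  exact h

theorem sum_enum {n : ℕ} (σ : Fin n → Bool) (s : Bool) (g : Fin n → ℝ) :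
    ∑ i ∈ side σ s, g i = ∑ j, g (enum σ s j) := by
  symm
  apply Finset.sum_nbij (enum σ s)
  · intro j _
    simp [side, enum_label]
  · exact (enum_injective σ s).injOn
  · intro i hi
    simp only [side, coe_filter, mem_univ, true_and, Set.mem_ofPred_eq] at hi
    obtain ⟨j, hj⟩ := exists_enum σ s i hi
    exact ⟨j, by simp, hj⟩
  · intro j _; rfl

theorem enum_isPart {n : ℕ} (σ : Fin n → Bool) (s : Bool) (p : ℝ) (ω : Input n → ℝ)
    (hω : ∀ e : Sym2 (Fin n), 0 ≤ ω (.inr (.inl e))) :
    IsPart (enum σ s) (gnp p (restr (enum σ s) ω))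
      (blockGraph p 0 σ (fun e => ω (.inr (.inl e)))) where
  inj := enum_injective σ s
  adj i j := by
    rw [gnp_adj]
    simp only [blockGraph, restr, inputMap, Sum.map_inr, Sum.map_inl, Sym2.map_mk, ne_eq,
      (enum_injective σ s).eq_iff, enum_label, if_true]
  closed i k h := by
    apply exists_enum
    have h2 := h.2
    by_contra hk
    have hne : ¬ σ (enum σ s i) = σ k := by
      rw [enum_label σ s i]; exact fun e => hk e.symm
    rw [if_neg hne] at h2
    exact absurd h2 (not_lt.2 (hω _))

theorem bpOverlap_eq {a : ℝ} (n t : ℕ) (σ : Fin n → Bool) (ω : Input n → ℝ)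
    (hω : ∀ e : Sym2 (Fin n), 0 ≤ ω (.inr (.inl e))) :
    bpOverlap a 0 n t σ ω = (1 / (n : ℝ)) *
      (total (bpFun a 0) t (a / n) (restr (enum σ true) ω) -
        total (bpFun a 0) t (a / n) (restr (enum σ false) ω)) := by
  classical
  unfold bpOverlap overlap
  congr 1
  set g := estimate (bpFun a 0)
    (blockGraph (a / n) (0 / n) σ (fun e => ω (.inr (.inl e))))
    (fun i j => ω (.inl (i, j))) t (fun i => ω (.inr (.inr i))) with hg
  have h0 : ((0 : ℝ) / n) = 0 := by simp
  have h1 : ∀ s : Bool, ∑ i ∈ side σ s, g i =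
      total (bpFun a 0) t (a / n) (restr (enum σ s) ω) := by
    intro s
    rw [sum_enum]
    unfold total
    refine Finset.sum_congr rfl (fun j _ => ?_)
    rw [hg, h0]
    exact estimate_part (enum_isPart σ s (a / n) ω hω) _ _ _ (fun _ _ => rfl) t _ _
      (fun _ => rfl) j
  rw [← h1 true, ← h1 false]
  have h2 : ∑ i, g i * (if σ i then (1 : ℝ) else -1) =
      ∑ i, (if σ i = true then g i else 0) - ∑ i, (if σ i = false then g i else 0) := by
    rw [← Finset.sum_sub_distrib]
    refine Finset.sum_congr rfl (fun i _ => ?_)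
    cases σ i <;> simp
  rw [h2, side, side, Finset.sum_filter, Finset.sum_filter]

theorem card_side_add {n : ℕ} (σ : Fin n → Bool) :
    (side σ true).card + (side σ false).card = n := by
  classical
  have h := Finset.card_filter_add_card_filter_not (s := (univ : Finset (Fin n)))
    (fun i => σ i = true)
  simp only [Bool.not_eq_true, card_univ, Fintype.card_fin] at h
  exact h

theorem card_side_sub {n : ℕ} (σ : Fin n → Bool) :
    ((side σ true).card : ℝ) - (side σ false).card = labelSum σ := by
  classical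
  unfold labelSum side
  rw [Finset.card_filter, Finset.card_filter]
  push_cast
  rw [← Finset.sum_sub_distrib]
  refine Finset.sum_congr rfl (fun i _ => ?_)
  cases σ i <;> simp

/-- The main bound: with `b = 0` the success probability stays away from `1`. -/
theorem main_bound (a : ℝ) (ha : 0 < a) (ε : ℝ) (hε : 0 < ε) :
    ∃ c : ℝ, 0 < c ∧ ∃ N : ℕ, ∀ n : ℕ, N ≤ n → ∀ t : ℕ, successProb a 0 n t ε ≤ 1 - c := by
  classical
  obtain ⟨c, hc0, N, hN⟩ := main_const a ha
  obtain ⟨K, hK⟩ := exists_nat_gt (8 / ε)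
  have hK0 : (0 : ℝ) < K := lt_trans (by positivity) hK
  set η : ℝ := (c * (1 / (2 * (K : ℝ)))) ^ 2 with hη
  have hη0 : 0 < η := by positivity
  obtain ⟨N3, hN3⟩ := exists_nat_ge (1024 / ε ^ 2)
  refine ⟨3 / 4 * η, by positivity, N + N3 + 100, ?_⟩
  intro n hn t
  obtain ⟨hp0, hp1, hmain⟩ := hN n (by omega)
  set r : ℕ := Nat.sqrt n + 1 with hr
  set M : ℕ := n / 2 + r + 1 with hM
  set L : ℕ := 2 * r + 2 with hL
  obtain ⟨hMn, j0, hj0, hcmp⟩ := hmain M L rfl rfl
  have hn100 : 100 ≤ n := by omega
  have hnR : (100 : ℝ) ≤ n := by exact_mod_cast hn100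
  have hn0 : (0 : ℝ) < n := by linarith
  have hnN3 : 1024 / ε ^ 2 ≤ n := by
    have : (N3 : ℝ) ≤ n := by
      have : N3 ≤ n := by omega
      exact_mod_cast this
    linarith
  have hr1 : n ≤ r * r := (Nat.lt_succ_sqrt n).le
  have hs1 : Nat.sqrt n * Nat.sqrt n ≤ n := Nat.sqrt_le n
  have hs10 : 10 ≤ Nat.sqrt n := by rw [Nat.le_sqrt]; omega
  have hr2 : r * r ≤ 4 * n := by
    have : r ≤ 2 * Nat.sqrt n := by omega
    calc r * r ≤ (2 * Nat.sqrt n) * (2 * Nat.sqrt n) := Nat.mul_le_mul this this
      _ = 4 * (Nat.sqrt n * Nat.sqrt n) := by ring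
      _ ≤ 4 * n := by omega
  have hrR2 : (r : ℝ) ^ 2 ≤ 4 * n := by
    have : (r : ℝ) * r ≤ 4 * n := by exact_mod_cast hr2
    nlinarith
  have hr1' : (1 : ℝ) ≤ r := by
    have : 1 ≤ r := by omega
    exact_mod_cast this
  have hLR : (L : ℝ) = 2 * r + 2 := by rw [hL]; push_cast; ring
  set w : ℝ := ε * n / 4 with hw
  have hw0 : 0 < w := by positivity
  have hKw : 2 * (n : ℝ) < K * w := by
    rw [div_lt_iff₀ hε] at hK
    have : 8 * (n : ℝ) < K * ε * n := by nlinarith
    rw [hw]; linarith
  obtain ⟨x, hx⟩ := pigeonhole M n K hMn (bpFun a 0) t (a / n) w hw0 hKw j0 hj0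
  -- the deviation is smaller than `ε n`
  have hsmall : w + 2 * L < ε * n := by
    have h1 : 8 * (r : ℝ) ≤ ε * n / 2 := by
      have h2 : (8 * (r : ℝ)) ^ 2 ≤ (ε * n / 2) ^ 2 := by
        rw [div_le_iff₀ (by positivity)] at hnN3
        calc (8 * (r : ℝ)) ^ 2 = 64 * (r : ℝ) ^ 2 := by ring
          _ ≤ 64 * (4 * (n : ℝ)) := by gcongr
          _ = 1024 * (n : ℝ) / 4 := by ring
          _ ≤ ((n : ℝ) * ε ^ 2) * n / 4 := by gcongr
          _ = (ε * n / 2) ^ 2 := by ring
      exact le_of_sq_le_sq h2 (by positivity)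
    rw [hLR, hw]
    have : 0 < ε * n := by positivity
    linarith
  -- bound for balanced labels
  have hbal : ∀ σ : Fin n → Bool, |labelSum σ| ≤ 2 * r →
      (law n).real {ω | ε ≤ |bpOverlap a 0 n t σ ω|} ≤ 1 - η := by
    intro σ hσ
    rw [abs_le] at hσ
    have hadd := card_side_add σ
    have hsub := card_side_sub σ
    have haddR : ((side σ true).card : ℝ) + (side σ false).card = n := by exact_mod_cast hadd
    have hside : ∀ s : Bool, (side σ s).card ≤ M ∧ M ≤ (side σ s).card + L := by
      have e1 : 2 * (side σ true).card ≤ n + 2 * r := by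
        have : 2 * ((side σ true).card : ℝ) ≤ n + 2 * r := by linarith
        exact_mod_cast this
      have e2 : 2 * (side σ false).card ≤ n + 2 * r := by
        have : 2 * ((side σ false).card : ℝ) ≤ n + 2 * r := by linarith
        exact_mod_cast this
      intro s
      cases s
      · constructor <;> omega
      · constructor <;> omega
    have hP : ∀ s : Bool, c * (1 / (2 * (K : ℝ))) ≤
        (law (side σ s).card).real
          (Ev (side σ s).card (bpFun a 0) t (a / n) (x - L) (x + w + L) 0) := by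
      intro s
      refine le_trans ?_ (hcmp (bpFun a 0) (measurable_bpFun a 0) t x (x + w) _ (hside s).1
        (hside s).2)
      gcongr
    set E : Set (Input n → ℝ) :=
      {ω | restr (enum σ true) ω ∈
          Ev (side σ true).card (bpFun a 0) t (a / n) (x - L) (x + w + L) 0 ∧
        restr (enum σ false) ω ∈
          Ev (side σ false).card (bpFun a 0) t (a / n) (x - L) (x + w + L) 0} with hE
    have hm1 := measurableSet_Ev (side σ true).card (measurable_bpFun a 0) t (a / n)
      (x - L) (x + w + L) 0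
    have hm2 := measurableSet_Ev (side σ false).card (measurable_bpFun a 0) t (a / n)
      (x - L) (x + w + L) 0
    have hEm : MeasurableSet E :=
      ((measurable_restr _) hm1).inter ((measurable_restr _) hm2)
    have hEP : (law n).real E =
        (law (side σ true).card).real
          (Ev (side σ true).card (bpFun a 0) t (a / n) (x - L) (x + w + L) 0) *
        (law (side σ false).card).real
          (Ev (side σ false).card (bpFun a 0) t (a / n) (x - L) (x + w + L) 0) := by
      unfold Measure.real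
      rw [hE, law_restr_pair (enum_injective σ true) (enum_injective σ false) _ hm1 hm2,
        ENNReal.toReal_mul]
      intro i j hij
      have h1 := enum_label σ true i
      have h2 := enum_label σ false j
      rw [hij, h2] at h1
      exact absurd h1 (by decide)
    have hEη : η ≤ (law n).real E := by
      rw [hEP, hη, sq]
      have h1 := hP true
      have h2 := hP false
      gcongr
    have hae : {ω | ε ≤ |bpOverlap a 0 n t σ ω|} ≤ᵐ[law n] Eᶜ := by
      filter_upwards [ae_nonneg n] with ω hω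
      intro hle hmem
      have hle' : ε ≤ |bpOverlap a 0 n t σ ω| := hle
      rw [bpOverlap_eq n t σ ω hω, abs_mul, abs_of_nonneg (by positivity)] at hle'
      obtain ⟨⟨⟨h1, h2⟩, _⟩, ⟨h3, h4⟩, _⟩ := hmem
      have h5 : |total (bpFun a 0) t (a / n) (restr (enum σ true) ω) -
          total (bpFun a 0) t (a / n) (restr (enum σ false) ω)| ≤ w + 2 * L := by
        rw [abs_le]; constructor <;> linarith
      rw [one_div, inv_mul_eq_div, le_div_iff₀ hn0] at hle'
      linarith
    have h6 : (law n).real {ω | ε ≤ |bpOverlap a 0 n t σ ω|} ≤ (law n).real Eᶜ := by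
      unfold Measure.real
      exact ENNReal.toReal_mono (measure_ne_top _ _) (measure_mono_ae hae)
    rw [probReal_compl_eq_one_sub hEm] at h6
    linarith
  -- average over the labels
  have hcard := card_balanced n r hr1 (by omega)
  set G := univ.filter (fun σ : Fin n → Bool => |labelSum σ| ≤ 2 * r) with hG
  have hη1 : ∀ σ : Fin n → Bool, (law n).real {ω | ε ≤ |bpOverlap a 0 n t σ ω|} ≤
      1 - (if σ ∈ G then η else 0) := by
    intro σ
    by_cases hσ : σ ∈ G
    · rw [if_pos hσ]
      exact hbal σ (by simpa [hG] using hσ)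
    · rw [if_neg hσ, sub_zero]
      exact measureReal_le_one
  unfold successProb
  have h2n : (0 : ℝ) < 2 ^ n := by positivity
  rw [one_div, inv_mul_eq_div, div_le_iff₀ h2n]
  refine (Finset.sum_le_sum (fun σ _ => hη1 σ)).trans ?_
  rw [Finset.sum_sub_distrib]
  have e1 : ∑ σ : Fin n → Bool, (1 : ℝ) = 2 ^ n := by simp
  have e2 : ∑ σ : Fin n → Bool, (if σ ∈ G then η else 0) = G.card * η := by
    rw [Finset.sum_ite_mem]
    simp
  rw [e1, e2]
  have : 3 / 4 * 2 ^ n * η ≤ G.card * η := by gcongr
  linarith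

end Pool.Agent.H932BP
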