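import Pool.Agent.H932BP.Count

open MeasureTheory Finset ProbabilityTheory

namespace Pool.Agent.H932BP

theorem iterate {f : ℝ → ℝ} (hf : Measurable f) (t : ℕ) {p : ℝ} (hp0 : 0 ≤ p)
    (hp1 : p < 1) (x y : ℝ) (j0 M L : ℕ) (ρ : ℝ) (hρ0 : 0 ≤ ρ)
    (hρ : ∀ i m : ℕ, i < L → m + 1 + i = M →
      ρ * (((m : ℝ) + 1) * (1 - p) ^ m) ≤ ((j0 - i : ℕ) : ℝ)) (δ : ℕ) :
    ∀ m : ℕ, δ ≤ L → m + δ = M → ρ ^ δ * (law M).real (Ev M f t p x y j0) ≤
      (law m).real (Ev m f t p (x - δ) (y + δ) (j0 - δ)) := by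
  induction δ with
  | zero =>
    intro m _ hm
    simp only [add_zero] at hm
    subst hm
    simp
  | succ δ ih =>
    intro m hδ hm
    have h1 := ih (m + 1) (by omega) (by omega)
    have h2 := step m hf t hp0 hp1.le (x - δ) (y + δ) (j0 - δ)
    have h3 := hρ δ m (by omega) (by omega)
    have hq : 0 < 1 - p := by linarith
    have hK : 0 < ((m : ℝ) + 1) * (1 - p) ^ m := by positivity
    have e1 : x - (δ : ℝ) - 1 = x - ((δ + 1 : ℕ) : ℝ) := by push_cast; ring
    have e2 : y + (δ : ℝ) + 1 = y + ((δ + 1 : ℕ) : ℝ) := by push_cast; ring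
    have e3 : j0 - δ - 1 = j0 - (δ + 1) := by omega
    rw [e1, e2, e3] at h2
    set P1 := (law (m + 1)).real (Ev (m + 1) f t p (x - δ) (y + δ) (j0 - δ)) with hP1
    set P0 := (law m).real (Ev m f t p (x - ((δ + 1 : ℕ) : ℝ)) (y + ((δ + 1 : ℕ) : ℝ))
      (j0 - (δ + 1))) with hP0
    have hP1' : 0 ≤ P1 := measureReal_nonneg
    have h4 : (((m : ℝ) + 1) * (1 - p) ^ m) * (ρ * P1) ≤ (((m : ℝ) + 1) * (1 - p) ^ m) * P0 := by
      calc (((m : ℝ) + 1) * (1 - p) ^ m) * (ρ * P1)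
          = ρ * (((m : ℝ) + 1) * (1 - p) ^ m) * P1 := by ring
        _ ≤ ((j0 - δ : ℕ) : ℝ) * P1 := by gcongr
        _ ≤ _ := h2
    have h5 : ρ * P1 ≤ P0 := le_of_mul_le_mul_left h4 hK
    calc ρ ^ (δ + 1) * (law M).real (Ev M f t p x y j0)
        = ρ * (ρ ^ δ * (law M).real (Ev M f t p x y j0)) := by ring
      _ ≤ ρ * P1 := by gcongr
      _ ≤ P0 := h5

theorem exp_le_one_sub {x : ℝ} (h0 : 0 ≤ x) (h1 : x ≤ 1 / 2) : Real.exp (-(2 * x)) ≤ 1 - x := by
  rw [Real.exp_neg]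
  have h2 : 1 + 2 * x ≤ Real.exp (2 * x) := by
    have := Real.add_one_le_exp (2 * x); linarith
  have h3 : 0 < 1 + 2 * x := by linarith
  calc (Real.exp (2 * x))⁻¹ ≤ (1 + 2 * x)⁻¹ := by gcongr
    _ ≤ 1 - x := by
      rw [inv_le_iff_one_le_mul₀ h3]
      nlinarith

theorem main_const (a : ℝ) (ha : 0 < a) : ∃ c : ℝ, 0 < c ∧ ∃ N : ℕ, ∀ n : ℕ, N ≤ n →
    0 ≤ a / n ∧ a / n < 1 ∧ ∀ M L : ℕ, M = n / 2 + (Nat.sqrt n + 1) + 1 →
      L = 2 * (Nat.sqrt n + 1) + 2 → M ≤ n ∧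
      ∃ j0 : ℕ, 1 / 2 ≤ (law M).real {ω | j0 ≤ numIso (a / n) ω} ∧
        ∀ (f : ℝ → ℝ), Measurable f → ∀ (t : ℕ) (x y : ℝ) (m : ℕ), m ≤ M → M ≤ m + L →
          c * (law M).real (Ev M f t (a / n) x y j0) ≤
            (law m).real (Ev m f t (a / n) (x - L) (y + L) 0) := by
  set κ : ℝ := Real.exp (-(2 * a)) / 2 with hκ
  have hκ0 : 0 < κ := by positivity
  set C : ℝ := 4 + 4 * a with hC
  have hC0 : 0 < C := by positivity
  set D : ℝ := 4 * (C + 4) / κ + 16 * a with hD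
  have hD0 : 0 < D := by positivity
  refine ⟨Real.exp (-(8 * D)), Real.exp_pos _, ?_⟩
  obtain ⟨N1, hN1⟩ := exists_nat_ge (2 * D)
  obtain ⟨N2, hN2⟩ := exists_nat_ge (2 * a)
  refine ⟨N1 ^ 2 + N2 + 100, ?_⟩
  intro n hn
  have hn100 : 100 ≤ n := by omega
  have hnR : (100 : ℝ) ≤ n := by exact_mod_cast hn100
  have hn0 : (0 : ℝ) < n := by linarith
  have hna : 2 * a ≤ n := by
    have : N2 ≤ n := by omega
    have : (N2 : ℝ) ≤ n := by exact_mod_cast this
    linarith
  have hp0 : 0 ≤ a / n := by positivity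
  have hp2 : a / n ≤ 1 / 2 := by rw [div_le_iff₀ hn0]; linarith
  have hp1 : a / n < 1 := by linarith
  refine ⟨hp0, hp1, ?_⟩
  intro M L hM hL
  set r : ℕ := Nat.sqrt n + 1 with hr
  have hr1 : n ≤ r * r := by
    have := Nat.lt_succ_sqrt n
    exact this.le
  have hs1 : Nat.sqrt n * Nat.sqrt n ≤ n := Nat.sqrt_le n
  have hs10 : 10 ≤ Nat.sqrt n := by
    rw [Nat.le_sqrt]; omega
  have hr2 : r * r ≤ 4 * n := by
    have : r ≤ 2 * Nat.sqrt n := by omega
    calc r * r ≤ (2 * Nat.sqrt n) * (2 * Nat.sqrt n) := Nat.mul_le_mul this this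
      _ = 4 * (Nat.sqrt n * Nat.sqrt n) := by ring
      _ ≤ 4 * n := by omega
  have hrN1 : N1 ≤ r := by
    have : N1 ≤ Nat.sqrt n := by
      rw [Nat.le_sqrt]
      have : N1 ^ 2 ≤ n := by omega
      nlinarith
    omega
  have hMn : M ≤ n := by
    have h10 : 10 * Nat.sqrt n ≤ n := by nlinarith
    omega
  refine ⟨hMn, ?_⟩
  -- real versions
  have hrR1 : (n : ℝ) ≤ (r : ℝ) ^ 2 := by
    have : (n : ℝ) ≤ (r : ℝ) * r := by exact_mod_cast hr1
    nlinarith
  have hrR2 : (r : ℝ) ^ 2 ≤ 4 * n := by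
    have : (r : ℝ) * r ≤ 4 * n := by exact_mod_cast hr2
    nlinarith
  have hrD : 2 * D ≤ r := by
    have : (N1 : ℝ) ≤ r := by exact_mod_cast hrN1
    linarith
  have hr0 : (0 : ℝ) < r := by linarith
  have hr1' : (1 : ℝ) ≤ r := by
    have : 1 ≤ r := by omega
    exact_mod_cast this
  have hLR : (L : ℝ) = 2 * r + 2 := by rw [hL]; push_cast; ring
  have hL4 : (L : ℝ) ≤ 4 * r := by linarith
  have hMR : (M : ℝ) ≤ n := by exact_mod_cast hMn
  have hMR2 : (n : ℝ) / 2 ≤ M := by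
    have : n ≤ 2 * M := by omega
    have : (n : ℝ) ≤ 2 * M := by exact_mod_cast this
    linarith
  set p : ℝ := a / n with hp
  have hq0 : 0 < 1 - p := by linarith
  have hq1 : 1 - p ≤ 1 := by linarith
  set μ : ℝ := (M : ℝ) * (1 - p) ^ (M - 1) with hμ
  have hqn : Real.exp (-(2 * a)) ≤ (1 - p) ^ n := by
    have h1 := exp_le_one_sub hp0 hp2
    calc Real.exp (-(2 * a)) = Real.exp (-(2 * p)) ^ n := by
          rw [← Real.exp_nat_mul]
          congr 1
          rw [hp]; field_simp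
      _ ≤ (1 - p) ^ n := by gcongr
  have hμ1 : κ * n ≤ μ := by
    calc κ * n = (n / 2 : ℝ) * Real.exp (-(2 * a)) := by rw [hκ]; ring
      _ ≤ (M : ℝ) * (1 - p) ^ n := by gcongr
      _ ≤ (M : ℝ) * (1 - p) ^ (M - 1) := by
        gcongr ?_ * ?_
        exact pow_le_pow_of_le_one hq0.le hq1 (by omega)
  have hμr : κ * r ^ 2 / 4 ≤ μ := by nlinarith
  have hμ0 : 0 < μ := by
    have : 0 < κ * r ^ 2 / 4 := by positivity
    linarith
  -- Chebyshev
  have hs0 : 0 < C * r := by positivity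
  obtain ⟨k, hk⟩ : ∃ k, M = k + 2 := ⟨M - 2, by omega⟩
  have hcheb : (law M).real {ω | (numIso p ω : ℝ) < μ - C * r} ≤ 1 / 2 := by
    have h1 := numIso_cheb k hp0 hp1.le hs0
    have e1 : ((k : ℝ) + 2) = (M : ℝ) := by rw [hk]; push_cast; ring
    have e2 : M - 1 = k + 1 := by omega
    rw [e1] at h1
    have h1' : (C * r) ^ 2 * (law M).real {ω | (numIso p ω : ℝ) < μ - C * r} ≤
        (M : ℝ) + (M : ℝ) ^ 2 * p := by
      rw [hμ, e2]
      subst hk
      exact h1
    have h2 : (M : ℝ) + (M : ℝ) ^ 2 * p ≤ n * (1 + a) := by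
      calc (M : ℝ) + (M : ℝ) ^ 2 * p ≤ n + (n : ℝ) ^ 2 * p := by gcongr
        _ = n * (1 + a) := by rw [hp]; field_simp
    have h3 : n * (1 + a) * 16 * (1 + a) ≤ (C * r) ^ 2 := by
      have : (C * r) ^ 2 = 16 * (1 + a) ^ 2 * r ^ 2 := by rw [hC]; ring
      rw [this]
      nlinarith [sq_nonneg (1 + a)]
    have h4 : 0 < n * (1 + a) := by positivity
    set P := (law M).real {ω | (numIso p ω : ℝ) < μ - C * r}
    have hP0 : 0 ≤ P := measureReal_nonneg
    by_contra hcon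
    push Not at hcon
    have h5 : n * (1 + a) * 16 * (1 + a) * (1 / 2) < n * (1 + a) * 16 * (1 + a) * P :=
      mul_lt_mul_of_pos_left hcon (by positivity)
    have h6 : n * (1 + a) * 16 * (1 + a) * P ≤ (C * r) ^ 2 * P := by gcongr
    have h7 : n * (1 + a) ≤ n * (1 + a) * 16 * (1 + a) * (1 / 2) := by nlinarith
    linarith
  refine ⟨⌈μ - C * r⌉₊, ?_, ?_⟩
  · have h1 : (law M).real {ω | ⌈μ - C * r⌉₊ ≤ numIso p ω} =
        1 - (law M).real {ω | (numIso p ω : ℝ) < μ - C * r} := by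
      have hms : MeasurableSet {ω : Input M → ℝ | (numIso p ω : ℝ) < μ - C * r} :=
        measurableSet_lt (measurable_from_nat.comp (measurable_numIso p)) measurable_const
      rw [← probReal_compl_eq_one_sub hms]
      congr 1
      ext ω
      simp only [Set.mem_ofPred_eq, Set.mem_compl_iff, not_lt, Nat.ceil_le]
    rw [h1]; linarith
  · intro f hf t x y m hmM hmL
    set j0 : ℕ := ⌈μ - C * r⌉₊ with hj0
    have hj0' : μ - C * r ≤ j0 := Nat.le_ceil _
    set ρ : ℝ := 1 - D / r with hρ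
    have hDr : D / r ≤ 1 / 2 := by rw [div_le_iff₀ hr0]; linarith
    have hDr0 : 0 ≤ D / r := by positivity
    have hρ0 : 0 ≤ ρ := by linarith
    have hρ1 : ρ ≤ 1 := by linarith
    have hkey : ∀ i m : ℕ, i < L → m + 1 + i = M →
        ρ * (((m : ℝ) + 1) * (1 - p) ^ m) ≤ ((j0 - i : ℕ) : ℝ) := by
      intro i m hi hmi
      have h1 : μ - C * r - L ≤ ((j0 - i : ℕ) : ℝ) := by
        have : (j0 : ℝ) ≤ ((j0 - i : ℕ) : ℝ) + i := by
          have : j0 ≤ (j0 - i) + i := by omega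
          exact_mod_cast this
        have hi' : (i : ℝ) ≤ L := by exact_mod_cast hi.le
        linarith
      have hqL : 0 < (1 - p) ^ L := by positivity
      have h2 : (((m : ℝ) + 1) * (1 - p) ^ m) * (1 - p) ^ L ≤ μ := by
        have h3 : (1 - p) ^ m * (1 - p) ^ L ≤ (1 - p) ^ (M - 1) := by
          rw [← pow_add]
          exact pow_le_pow_of_le_one hq0.le hq1 (by omega)
        have h4 : (m : ℝ) + 1 ≤ M := by
          have : m + 1 ≤ M := by omega
          exact_mod_cast this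
        calc (((m : ℝ) + 1) * (1 - p) ^ m) * (1 - p) ^ L
            = ((m : ℝ) + 1) * ((1 - p) ^ m * (1 - p) ^ L) := by ring
          _ ≤ (M : ℝ) * (1 - p) ^ (M - 1) := by gcongr
      have h5 : 1 - p * L ≤ (1 - p) ^ L := by
        have := one_add_mul_le_pow (a := -p) (by linarith) L
        have e : (1 : ℝ) + (-p) = 1 - p := by ring
        rw [e] at this
        linarith
      have h6 : p * L ≤ 16 * a / r := by
        rw [le_div_iff₀ hr0, hp]
        have : a / n * L * r ≤ a / n * (4 * r) * r := by gcongr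
        refine this.trans ?_
        have e : a / (n : ℝ) * (4 * r) * r = 4 * a * r ^ 2 / n := by ring
        rw [e, div_le_iff₀ hn0]
        nlinarith
      have h7 : C * r + L ≤ 4 * (C + 4) / κ * μ / r := by
        rw [le_div_iff₀ hr0]
        have h8 : (C * r + L) * r ≤ (C + 4) * r ^ 2 := by nlinarith
        have h9 : (C + 4) * r ^ 2 = 4 * (C + 4) / κ * (κ * r ^ 2 / 4) := by
          field_simp
        rw [h9] at h8
        refine h8.trans ?_
        gcongr
      have h10 : ρ * μ ≤ ((j0 - i : ℕ) : ℝ) * (1 - p) ^ L := by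
        have h11 : ρ * μ = μ - (4 * (C + 4) / κ * μ / r) - (16 * a / r) * μ := by
          rw [hρ, hD]; field_simp; ring
        have h12 : 0 ≤ ρ * μ := by positivity
        have h13 : 0 ≤ μ - C * r - L := by
          have : 0 ≤ 16 * a / r * μ := by positivity
          linarith
        calc ρ * μ ≤ μ - (C * r + L) - (p * L) * μ := by
              rw [h11]
              have : p * L * μ ≤ 16 * a / r * μ := by gcongr
              linarith
          _ ≤ (μ - C * r - L) * (1 - p * L) := by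
              have hpL : 0 ≤ p * L := by positivity
              nlinarith
          _ ≤ (μ - C * r - L) * (1 - p) ^ L := by gcongr
          _ ≤ ((j0 - i : ℕ) : ℝ) * (1 - p) ^ L := by gcongr
      have h14 : ρ * (((m : ℝ) + 1) * (1 - p) ^ m) * (1 - p) ^ L ≤
          ((j0 - i : ℕ) : ℝ) * (1 - p) ^ L := by
        calc ρ * (((m : ℝ) + 1) * (1 - p) ^ m) * (1 - p) ^ L
            = ρ * ((((m : ℝ) + 1) * (1 - p) ^ m) * (1 - p) ^ L) := by ring
          _ ≤ ρ * μ := by gcongr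
          _ ≤ _ := h10
      exact le_of_mul_le_mul_right h14 hqL
    obtain ⟨δ, hδ⟩ : ∃ δ, m + δ = M := ⟨M - m, by omega⟩
    have hδL : δ ≤ L := by omega
    have hit := iterate hf t hp0 hp1 x y j0 M L ρ hρ0 hkey δ m hδL hδ
    have hρL : Real.exp (-(8 * D)) ≤ ρ ^ δ := by
      have h1 := exp_le_one_sub hDr0 hDr
      have h2 : ρ ^ (4 * r) ≤ ρ ^ δ := by
        apply pow_le_pow_of_le_one hρ0 hρ1
        omega
      refine le_trans ?_ h2
      calc Real.exp (-(8 * D)) = Real.exp (-(2 * (D / r))) ^ (4 * r) := by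
            rw [← Real.exp_nat_mul]
            congr 1
            push_cast
            field_simp
            ring
        _ ≤ ρ ^ (4 * r) := by gcongr
    calc Real.exp (-(8 * D)) * (law M).real (Ev M f t p x y j0)
        ≤ ρ ^ δ * (law M).real (Ev M f t p x y j0) := by gcongr
      _ ≤ _ := hit
      _ ≤ _ := by
        apply measureReal_mono
        · rintro ω ⟨⟨h1, h2⟩, h3⟩
          have hδR : (δ : ℝ) ≤ L := by exact_mod_cast hδL
          exact ⟨⟨by linarith, by linarith⟩, Nat.zero_le _⟩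
        · exact measure_ne_top _ _

end Pool.Agent.H932BP
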