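import Pool.Agent.H932BP.Basic

open MeasureTheory Finset ProbabilityTheory

namespace Pool.Agent.H932BP

theorem law_iso_real {m : ℕ} (v : Fin (m + 1)) {p : ℝ} (hp0 : 0 ≤ p) (hp1 : p ≤ 1)
    {S : Set (Input m → ℝ)} (hS : MeasurableSet S) :
    (law (m + 1)).real {ω | restr v.succAbove ω ∈ S ∧ Iso p ω v} =
      (law m).real S * (1 - p) ^ m := by
  have h := law_isolated v hp0 hp1 hS
  simp only [← iso_iff] at h
  unfold Measure.real
  rw [h, ENNReal.toReal_mul, ENNReal.toReal_pow, ENNReal.toReal_ofReal (by linarith)]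

/-- Counting lemma. -/
theorem count_le {Ω ι : Type} [MeasurableSpace Ω] [Fintype ι] (μ : Measure Ω)
    [IsProbabilityMeasure μ] (A : Set Ω) (hA : MeasurableSet A) (B : ι → Set Ω)
    (hB : ∀ i, MeasurableSet (B i)) (j : ℕ)
    (h : ∀ ω ∈ A, (j : ℝ) ≤ ∑ i, (B i).indicator (fun _ => (1 : ℝ)) ω) :
    (j : ℝ) * μ.real A ≤ ∑ i, μ.real (A ∩ B i) := by
  have h1 : ∀ i, μ.real (A ∩ B i) = ∫ ω, (A ∩ B i).indicator (fun _ => (1 : ℝ)) ω ∂μ := by
    intro i
    rw [integral_indicator_const _ (hA.inter (hB i))]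
    simp
  have h2 : μ.real A = ∫ ω, A.indicator (fun _ => (1 : ℝ)) ω ∂μ := by
    rw [integral_indicator_const _ hA]
    simp
  rw [h2, Finset.sum_congr rfl (fun i _ => h1 i), ← integral_const_mul, ← integral_finsetSum]
  · apply integral_mono
    · exact ((integrable_const (1 : ℝ)).indicator hA).const_mul _
    · exact integrable_finsetSum _ (fun i _ =>
        (integrable_const (1 : ℝ)).indicator (hA.inter (hB i)))
    · intro ω
      by_cases hω : ω ∈ A
      · simp only [Set.indicator_of_mem hω, mul_one]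
        refine (h ω hω).trans (le_of_eq ?_)
        refine Finset.sum_congr rfl (fun i _ => ?_)
        by_cases hb : ω ∈ B i
        · rw [Set.indicator_of_mem hb, Set.indicator_of_mem (Set.mem_inter hω hb)]
        · rw [Set.indicator_of_notMem hb, Set.indicator_of_notMem (fun h => hb h.2)]
      · simp only [Set.indicator_of_notMem hω, mul_zero]
        refine Finset.sum_nonneg (fun i _ => ?_)
        exact Set.indicator_nonneg (fun _ _ => zero_le_one) ω
  · intro i _
    exact (integrable_const (1 : ℝ)).indicator (hA.inter (hB i))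

theorem numIso_eq_sum {m : ℕ} (p : ℝ) (ω : Input m → ℝ) :
    (numIso p ω : ℝ) = ∑ v, ({ω : Input m → ℝ | Iso p ω v}).indicator (fun _ => (1 : ℝ)) ω := by
  classical
  unfold numIso
  rw [Finset.card_filter]
  push_cast
  refine Finset.sum_congr rfl (fun v _ => ?_)
  by_cases h : Iso p ω v
  · rw [if_pos h, Set.indicator_of_mem (show ω ∈ {ω : Input m → ℝ | Iso p ω v} from h)]
  · rw [if_neg h, Set.indicator_of_notMem (show ω ∉ {ω : Input m → ℝ | Iso p ω v} from h)]

/-- The event that the total is in `[x, y]` and there are at least `j` isolated vertices. -/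
def Ev (m : ℕ) (f : ℝ → ℝ) (t : ℕ) (p x y : ℝ) (j : ℕ) : Set (Input m → ℝ) :=
  {ω | (x ≤ total f t p ω ∧ total f t p ω ≤ y) ∧ j ≤ numIso p ω}

theorem measurableSet_Ev (m : ℕ) {f : ℝ → ℝ} (hf : Measurable f) (t : ℕ) (p x y : ℝ) (j : ℕ) :
    MeasurableSet (Ev m f t p x y j) := by
  unfold Ev
  have h1 := measurable_total (n := m) hf t p
  have h2 := measurable_numIso (n := m) p
  exact ((measurableSet_le measurable_const h1).inter (measurableSet_le h1 measurable_const)).inter
    (measurableSet_le measurable_const h2)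

theorem step (m : ℕ) {f : ℝ → ℝ} (hf : Measurable f) (t : ℕ) {p : ℝ} (hp0 : 0 ≤ p)
    (hp1 : p ≤ 1) (x y : ℝ) (j : ℕ) :
    (j : ℝ) * (law (m + 1)).real (Ev (m + 1) f t p x y j) ≤
      ((m : ℝ) + 1) * (1 - p) ^ m * (law m).real (Ev m f t p (x - 1) (y + 1) (j - 1)) := by
  have h1 := count_le (law (m + 1)) (Ev (m + 1) f t p x y j) (measurableSet_Ev _ hf t p x y j)
    (fun v => {ω : Input (m + 1) → ℝ | Iso p ω v}) (fun v => measurableSet_iso p v) j
    (by
      intro ω hω
      rw [← numIso_eq_sum]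
      exact_mod_cast hω.2)
  refine h1.trans ?_
  have h2 : ∀ v : Fin (m + 1), (law (m + 1)).real
      (Ev (m + 1) f t p x y j ∩ {ω : Input (m + 1) → ℝ | Iso p ω v}) ≤
      (law m).real (Ev m f t p (x - 1) (y + 1) (j - 1)) * (1 - p) ^ m := by
    intro v
    rw [← law_iso_real v hp0 hp1 (measurableSet_Ev m hf t p (x - 1) (y + 1) (j - 1))]
    apply measureReal_mono
    · rintro ω ⟨⟨⟨h3, h4⟩, h5⟩, h6⟩
      refine ⟨⟨⟨?_, ?_⟩, ?_⟩, h6⟩
      · have h7 := total_remove v f t p ω h6
        have h8 : |est f t p ω v| ≤ 1 := abs_estimate_le f _ _ t _ v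
        rw [abs_le] at h8
        linarith
      · have h7 := total_remove v f t p ω h6
        have h8 : |est f t p ω v| ≤ 1 := abs_estimate_le f _ _ t _ v
        rw [abs_le] at h8
        linarith
      · have h7 := numIso_remove v p ω h6
        omega
    · exact measure_ne_top _ _
  refine (Finset.sum_le_sum (fun v _ => h2 v)).trans (le_of_eq ?_)
  simp only [sum_const, card_univ, Fintype.card_fin, nsmul_eq_mul]
  push_cast
  ring

theorem integral_numIso (m : ℕ) {p : ℝ} (hp0 : 0 ≤ p) (hp1 : p ≤ 1) :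
    ∫ ω, (numIso p ω : ℝ) ∂(law (m + 1)) = ((m : ℝ) + 1) * (1 - p) ^ m := by
  simp only [numIso_eq_sum]
  rw [integral_finsetSum]
  · have : ∀ v : Fin (m + 1), ∫ ω, ({ω : Input (m + 1) → ℝ | Iso p ω v}).indicator
        (fun _ => (1 : ℝ)) ω ∂(law (m + 1)) = (1 - p) ^ m := by
      intro v
      rw [integral_indicator_const _ (measurableSet_iso p v)]
      have h := law_iso_real v hp0 hp1 (S := Set.univ) MeasurableSet.univ
      simp only [Set.mem_univ, true_and, probReal_univ, one_mul] at h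
      rw [h]; simp
    rw [Finset.sum_congr rfl (fun v _ => this v)]
    simp
  · intro v _
    exact (integrable_const (1 : ℝ)).indicator (measurableSet_iso p v)

theorem real_iso_iso (m : ℕ) {p : ℝ} (hp0 : 0 ≤ p) (hp1 : p ≤ 1) (v : Fin (m + 2))
    (w : Fin (m + 1)) :
    (law (m + 2)).real ({ω | Iso p ω v} ∩ {ω | Iso p ω (v.succAbove w)}) =
      (1 - p) ^ m * (1 - p) ^ (m + 1) := by
  have h := law_iso_real v hp0 hp1 (S := {ω | Iso p ω w}) (measurableSet_iso p w)
  have h2 := law_iso_real w hp0 hp1 (S := Set.univ) MeasurableSet.univ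
  simp only [Set.mem_univ, true_and, probReal_univ, one_mul] at h2
  rw [h2] at h
  rw [← h]
  congr 1
  ext ω
  simp only [Set.mem_inter_iff, Set.mem_ofPred_eq]
  constructor
  · rintro ⟨h3, h4⟩
    refine ⟨?_, h3⟩
    have hc := iso_isPart v p ω h3
    intro j hj
    exact h4 _ ((hc.adj w j).2 hj)
  · rintro ⟨h3, h4⟩
    refine ⟨h4, ?_⟩
    have hc := iso_isPart v p ω h4
    intro k hk
    obtain ⟨j, rfl⟩ := hc.closed w k hk
    exact h3 j ((hc.adj w j).1 hk)

theorem integral_numIso_sq (m : ℕ) {p : ℝ} (hp0 : 0 ≤ p) (hp1 : p ≤ 1) :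
    ∫ ω, (numIso p ω : ℝ) ^ 2 ∂(law (m + 2)) =
      ((m : ℝ) + 2) * (1 - p) ^ (m + 1) +
        ((m : ℝ) + 2) * ((m : ℝ) + 1) * ((1 - p) ^ m * (1 - p) ^ (m + 1)) := by
  have h0 : ∀ ω : Input (m + 2) → ℝ, (numIso p ω : ℝ) ^ 2 =
      ∑ v, ∑ w, ({ω | Iso p ω v} ∩ {ω | Iso p ω w}).indicator (fun _ => (1 : ℝ)) ω := by
    intro ω
    rw [sq, numIso_eq_sum, Finset.sum_mul_sum]
    refine Finset.sum_congr rfl (fun v _ => Finset.sum_congr rfl (fun w _ => ?_))
    rw [← Set.inter_indicator_mul]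
    simp
  have hms : ∀ v w : Fin (m + 2), MeasurableSet
      ({ω : Input (m + 2) → ℝ | Iso p ω v} ∩ {ω | Iso p ω w}) := fun v w =>
    (measurableSet_iso p v).inter (measurableSet_iso p w)
  simp only [h0]
  rw [integral_finsetSum]
  · have h1 : ∀ v : Fin (m + 2), ∫ ω, ∑ w, ({ω | Iso p ω v} ∩ {ω | Iso p ω w}).indicator
        (fun _ => (1 : ℝ)) ω ∂(law (m + 2)) =
        (1 - p) ^ (m + 1) + ((m : ℝ) + 1) * ((1 - p) ^ m * (1 - p) ^ (m + 1)) := by
      intro v
      rw [integral_finsetSum]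
      · rw [Fin.sum_univ_succAbove _ v]
        congr 1
        · rw [integral_indicator_const _ (hms v v), Set.inter_self]
          have h := law_iso_real v hp0 hp1 (S := Set.univ) MeasurableSet.univ
          simp only [Set.mem_univ, true_and, probReal_univ, one_mul] at h
          rw [h]; simp
        · have h3 : ∀ w : Fin (m + 1), ∫ ω, ({ω | Iso p ω v} ∩
              {ω | Iso p ω (v.succAbove w)}).indicator (fun _ => (1 : ℝ)) ω ∂(law (m + 2)) =
              (1 - p) ^ m * (1 - p) ^ (m + 1) := by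
            intro w
            rw [integral_indicator_const _ (hms _ _), real_iso_iso m hp0 hp1 v w]
            simp
          rw [Finset.sum_congr rfl (fun w _ => h3 w)]
          simp
      · intro w _
        exact (integrable_const (1 : ℝ)).indicator (hms v w)
    rw [Finset.sum_congr rfl (fun v _ => h1 v)]
    simp only [sum_const, card_univ, Fintype.card_fin, nsmul_eq_mul]
    push_cast
    ring
  · intro v _
    refine integrable_finsetSum _ (fun w _ => ?_)
    exact (integrable_const (1 : ℝ)).indicator (hms v w)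

theorem numIso_le {m : ℕ} (p : ℝ) (ω : Input m → ℝ) : numIso p ω ≤ m := by
  classical
  unfold numIso
  exact (Finset.card_le_univ _).trans (by simp)

theorem integrable_numIso (m : ℕ) (p : ℝ) :
    Integrable (fun ω => (numIso p ω : ℝ)) (law m) := by
  refine Integrable.of_bound ((measurable_from_nat.comp (measurable_numIso p)).aestronglyMeasurable)
    (m : ℝ) (Filter.Eventually.of_forall (fun ω => ?_))
  simp only [Real.norm_natCast]
  exact_mod_cast numIso_le p ω

theorem integrable_numIso_sq (m : ℕ) (p : ℝ) :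
    Integrable (fun ω => (numIso p ω : ℝ) ^ 2) (law m) := by
  have h1 : Measurable (fun ω : Input m → ℝ => (numIso p ω : ℝ)) :=
    measurable_from_nat.comp (measurable_numIso p)
  refine Integrable.of_bound (h1.pow_const 2).aestronglyMeasurable
    ((m : ℝ) ^ 2) (Filter.Eventually.of_forall (fun ω => ?_))
  rw [Real.norm_of_nonneg (by positivity)]
  have : (numIso p ω : ℝ) ≤ m := by exact_mod_cast numIso_le p ω
  gcongr

/-- Chebyshev's inequality for the number of isolated vertices. -/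
theorem numIso_cheb (m : ℕ) {p : ℝ} (hp0 : 0 ≤ p) (hp1 : p ≤ 1) {s : ℝ} (hs : 0 < s) :
    s ^ 2 * (law (m + 2)).real
        {ω | (numIso p ω : ℝ) < ((m : ℝ) + 2) * (1 - p) ^ (m + 1) - s} ≤
      ((m : ℝ) + 2) + ((m : ℝ) + 2) ^ 2 * p := by
  set e : ℝ := ((m : ℝ) + 2) * (1 - p) ^ (m + 1) with he
  have h1 : ∫ ω, ((numIso p ω : ℝ) - e) ^ 2 ∂(law (m + 2)) =
      ((m : ℝ) + 2) * (1 - p) ^ (m + 1) +
        ((m : ℝ) + 2) * ((m : ℝ) + 1) * ((1 - p) ^ m * (1 - p) ^ (m + 1)) - e ^ 2 := by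
    have h2 : ∀ ω : Input (m + 2) → ℝ, ((numIso p ω : ℝ) - e) ^ 2 =
        (numIso p ω : ℝ) ^ 2 - (2 * e) * (numIso p ω : ℝ) + e ^ 2 := by intro ω; ring
    simp only [h2]
    rw [integral_add, integral_sub, integral_const_mul, integral_numIso_sq m hp0 hp1,
      integral_numIso (m + 1) hp0 hp1]
    · simp only [integral_const, probReal_univ, smul_eq_mul, one_mul]
      push_cast
      rw [he]; ring
    · exact integrable_numIso_sq _ p
    · exact (integrable_numIso _ p).const_mul _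
    · exact (integrable_numIso_sq _ p).sub ((integrable_numIso _ p).const_mul _)
    · exact integrable_const _
  have h3 := mul_meas_ge_le_integral_of_nonneg (μ := law (m + 2))
    (f := fun ω => ((numIso p ω : ℝ) - e) ^ 2) (Filter.Eventually.of_forall (fun ω => by positivity))
    (by
      have h2 : (fun ω : Input (m + 2) → ℝ => ((numIso p ω : ℝ) - e) ^ 2) =
        fun ω => (numIso p ω : ℝ) ^ 2 - (2 * e) * (numIso p ω : ℝ) + e ^ 2 := by funext ω; ring
      rw [h2]
      exact ((integrable_numIso_sq _ p).sub ((integrable_numIso _ p).const_mul _)).add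
        (integrable_const _)) (s ^ 2)
  have h4 : (law (m + 2)).real {ω | (numIso p ω : ℝ) < e - s} ≤
      (law (m + 2)).real {ω | s ^ 2 ≤ ((numIso p ω : ℝ) - e) ^ 2} := by
    apply measureReal_mono
    · intro ω hω
      simp only [Set.mem_ofPred_eq] at hω ⊢
      have : s ≤ e - numIso p ω := by linarith
      calc s ^ 2 ≤ (e - numIso p ω) ^ 2 := by gcongr
        _ = _ := by ring
    · exact measure_ne_top _ _
  have h5 : s ^ 2 * (law (m + 2)).real {ω | (numIso p ω : ℝ) < e - s} ≤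
      ∫ ω, ((numIso p ω : ℝ) - e) ^ 2 ∂(law (m + 2)) :=
    (mul_le_mul_of_nonneg_left h4 (by positivity)).trans h3
  refine h5.trans ?_
  rw [h1, he]
  have hq0 : 0 ≤ 1 - p := by linarith
  have hq1 : 1 - p ≤ 1 := by linarith
  have hA0 : 0 ≤ (1 - p) ^ m := by positivity
  have hA1 : (1 - p) ^ m ≤ 1 := pow_le_one₀ hq0 hq1
  have hA2 : (1 - p) ^ (m + 1) ≤ 1 := pow_le_one₀ hq0 hq1
  have hA3 : 0 ≤ (1 - p) ^ (m + 1) := by positivity
  have hm : (0 : ℝ) ≤ m := by positivity
  have e1 : (((m : ℝ) + 2) * (1 - p) ^ (m + 1)) ^ 2 =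
      ((m : ℝ) + 2) ^ 2 * ((1 - p) ^ m * (1 - p) ^ (m + 1)) * (1 - p) := by
    rw [pow_succ (1 - p) m]; ring
  rw [e1]
  set X : ℝ := (1 - p) ^ m * (1 - p) ^ (m + 1) with hX
  have hX0 : 0 ≤ X := by positivity
  have hX1 : X ≤ 1 := by
    calc X ≤ 1 * 1 := by rw [hX]; gcongr
      _ = 1 := by ring
  have e2 : ((m : ℝ) + 2) * (1 - p) ^ (m + 1) ≤ ((m : ℝ) + 2) * 1 := by gcongr
  have e3 : ((m : ℝ) + 2) ^ 2 * p * X ≤ ((m : ℝ) + 2) ^ 2 * p * 1 := by gcongr
  have e4 : ((m : ℝ) + 2) * ((m : ℝ) + 1) * X ≤ ((m : ℝ) + 2) ^ 2 * X := by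
    have : ((m : ℝ) + 2) * ((m : ℝ) + 1) ≤ ((m : ℝ) + 2) ^ 2 := by nlinarith
    gcongr
  nlinarith

end Pool.Agent.H932BP
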