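import Mathlib

/-!
# Belief propagation from random initialization in the two-community block model: definitions
-/

open MeasureTheory Finset

namespace Pool.Agent.H932BP

/-- The uniform probability law on the interval `[x, y]`. -/
noncomputable def unif (x y : ℝ) : Measure ℝ :=
  ProbabilityTheory.cond volume (Set.Icc x y)

/-- A fair coin: `+1` or `-1`, each with probability `1/2`. -/
noncomputable def fairCoin : Measure ℝ :=
  (1 / 2 : ENNReal) • Measure.dirac 1 + (1 / 2 : ENNReal) • Measure.dirac (-1)

/-- The names of the independent random inputs other than the labels: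
`inl (i, j)` is the initial message `i → j`;
`inr (inl e)` is the variable that decides whether the unordered pair `e` is an edge;
`inr (inr i)` is the coin that breaks a tie at the vertex `i`. -/
abbrev Input (n : ℕ) := (Fin n × Fin n) ⊕ (Sym2 (Fin n) ⊕ Fin n)

/-- The law of each input: initial messages are uniform on `[-1, 1]`, edge variables are uniform
on `[0, 1]`, and coins are fair. -/
noncomputable def inputLaw {n : ℕ} : Input n → Measure ℝ
  | .inl _ => unif (-1) 1
  | .inr (.inl _) => unif 0 1
  | .inr (.inr _) => fairCoin

/-- The joint law of all inputs: they are independent. -/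
noncomputable def law (n : ℕ) : Measure (Input n → ℝ) := Measure.pi inputLaw

/-- The graph in which `i ≠ j` are joined when the edge variable `u s(i, j)` is less than `p` (if the
labels agree) or less than `q` (if they differ). When the edge variables are independent and uniform
on `[0, 1]`, the pairs are joined independently, with probability `p` if the labels agree and `q`
otherwise (for `p, q ∈ [0, 1]`). -/
def blockGraph {n : ℕ} (p q : ℝ) (σ : Fin n → Bool) (u : Sym2 (Fin n) → ℝ) :
    SimpleGraph (Fin n) where
  Adj i j := i ≠ j ∧ u s(i, j) < (if σ i = σ j then p else q)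
  symm := ⟨fun i j h => by
    refine ⟨h.1.symm, ?_⟩
    rw [Sym2.eq_swap]
    have h2 := h.2
    by_cases hs : σ i = σ j
    · rw [if_pos hs] at h2
      rw [if_pos hs.symm]
      exact h2
    · rw [if_neg hs] at h2
      rw [if_neg (fun e => hs e.symm)]
      exact h2⟩
  loopless := ⟨fun _ h => h.1 rfl⟩

/-- The function `f(h) = artanh (θ tanh h)` of belief propagation, with `θ = (a - b)/(a + b)`. -/
noncomputable def bpFun (a b h : ℝ) : ℝ := Real.artanh ((a - b) / (a + b) * Real.tanh h)

open scoped Classical in
/-- The messages after `t` rounds, from initial messages `h0`: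
`h^{t+1}_{i → j} = ∑_{k ∈ ∂i \ {j}} f (h^t_{k → i})`. -/
noncomputable def message {n : ℕ} (f : ℝ → ℝ) (G : SimpleGraph (Fin n))
    (h0 : Fin n → Fin n → ℝ) : ℕ → Fin n → Fin n → ℝ
  | 0, i, j => h0 i j
  | t + 1, i, j =>
      ∑ k ∈ univ.filter (fun k => G.Adj i k ∧ k ≠ j), f (message f G h0 t k i)

open scoped Classical in
/-- The sum `∑_{k ∈ ∂i} f (h^t_{k → i})` whose sign is the estimate. -/
noncomputable def field {n : ℕ} (f : ℝ → ℝ) (G : SimpleGraph (Fin n))
    (h0 : Fin n → Fin n → ℝ) (t : ℕ) (i : Fin n) : ℝ :=
  ∑ k ∈ univ.filter (fun k => G.Adj i k), f (message f G h0 t k i)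

/-- The estimate of the label of `i` after `t` rounds: the sign of the field, with ties broken by
the fair coin `coin i`. -/
noncomputable def estimate {n : ℕ} (f : ℝ → ℝ) (G : SimpleGraph (Fin n))
    (h0 : Fin n → Fin n → ℝ) (t : ℕ) (coin : Fin n → ℝ) (i : Fin n) : ℝ :=
  if 0 < field f G h0 t i then 1
  else if field f G h0 t i < 0 then -1
  else if 0 < coin i then 1 else -1

/-- The normalized overlap `(1/n) ∑ i, σ̂ i * σ i` of an estimate with the labels
(`true` is the label `+1`, `false` is `-1`). -/
noncomputable def overlap {n : ℕ} (σ : Fin n → Bool) (est : Fin n → ℝ) : ℝ :=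
  (1 / (n : ℝ)) * ∑ i, est i * (if σ i then 1 else -1)

/-- The overlap, in `G(n, a/n, b/n)` with labels `σ` and random inputs `ω`, of the estimate of
belief propagation after `t` rounds from random initialization. -/
noncomputable def bpOverlap (a b : ℝ) (n t : ℕ) (σ : Fin n → Bool) (ω : Input n → ℝ) : ℝ :=
  overlap σ (estimate (bpFun a b)
    (blockGraph (a / n) (b / n) σ (fun e => ω (.inr (.inl e))))
    (fun i j => ω (.inl (i, j))) t (fun i => ω (.inr (.inr i))))

/-- The probability, over i.i.d. uniform labels and the random inputs, that the absolute overlap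
is at least `ε`. -/
noncomputable def successProb (a b : ℝ) (n t : ℕ) (ε : ℝ) : ℝ :=
  (1 / 2 ^ n) * ∑ σ : Fin n → Bool, (law n).real {ω | ε ≤ |bpOverlap a b n t σ ω|}

/-- Randomly initialized belief propagation, run for `t n` rounds, achieves `ε` correlation with
the labels. -/
def AchievesCorrelation (a b : ℝ) (t : ℕ → ℕ) (ε : ℝ) : Prop :=
  Filter.Tendsto (fun n : ℕ => successProb a b n (t n) ε) Filter.atTop (nhds 1)

end Pool.Agent.H932BP
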